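import Pool.Agent.X318.FranelSums

/-!
# `∑_{k<n} (-1)^k (3k+2) f_k^{(2r+1)}` is divisible by `4 n` for `n > 1`

The sum is `2 ∑_{y<n} L_y`, where `L_y = ∑_{k<n} (-1)^k (2k-y+1) C(k,y)^(2r+1)` is congruent to
`(-1)^(n-1) n C(n-1,y)` modulo `2 n`, so that the sum is congruent to `± 2 n 2^(n-1)` modulo `4 n`.
-/

set_option autoImplicit false

open Finset

namespace Pool.Agent.Results.MP_97e2c3_nt.OddPowerSums

/-- The sum of the `r`-th powers of the binomial coefficients `C(n,k)`, `0 ≤ k ≤ n`. -/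
def f (r n : ℕ) : ℕ := ∑ k ∈ range (n + 1), n.choose k ^ r

/-- The alternating sum `S_r(n)` for the odd exponent `2 r + 1`. -/
def S (r n : ℕ) : ℤ := ∑ k ∈ range n, (-1 : ℤ) ^ k * (3 * (k : ℤ) + 2) * (f (2 * r + 1) k : ℤ)

/-- For all `r` and all `n > 1` the number `4 n` divides `S_r(n)`. -/
theorem result (r n : ℕ) (hn : 1 < n) : (4 * (n : ℤ)) ∣ S r n := by
  obtain ⟨m, rfl⟩ : ∃ m, n = m + 2 := ⟨n - 2, by omega⟩
  have hsgn : ∀ k : ℕ, (-1 : ℤ) ^ ((2 * r + 1) * k) = (-1) ^ k := by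
    intro k
    rw [show (2 * r + 1) * k = 2 * (r * k) + k by ring, pow_add, pow_mul]
    simp
  have h1 := Pool.Agent.X318.LineSum.three_sum (2 * r + 1) (m + 2) (by omega)
  simp_rw [hsgn] at h1
  unfold S f
  rw [h1]
  have h2 : ((2 * (m + 1 + 1) : ℕ) : ℤ) ∣ ∑ y ∈ range (m + 2),
      (∑ k ∈ range (m + 1 + 1), (-1) ^ k * (2 * (k : ℤ) - y + 1) * (k.choose y : ℤ) ^ (2 * r + 1) -
        (-1) ^ (m + 1) * (((m + 1 : ℕ) + 1) * (m + 1).choose y)) :=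
    dvd_sum fun y _ => Pool.Agent.X318.LineSum.odd_mod y r (m + 1)
  rw [sum_sub_distrib] at h2
  have h3 : ∑ y ∈ range (m + 2), ((-1 : ℤ) ^ (m + 1) * (((m + 1 : ℕ) + 1) * (m + 1).choose y)) =
      (-1) ^ (m + 1) * ((m + 2) * 2 ^ (m + 1)) := by
    have h4 := Nat.sum_range_choose (m + 1)
    have h5 := congrArg (Nat.cast : ℕ → ℤ) h4
    push_cast at h5
    rw [← h5, mul_sum, mul_sum]
    refine sum_congr rfl fun y _ => ?_
    push_cast
    ring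
  rw [h3] at h2
  have h6 : ((2 * (m + 1 + 1) : ℕ) : ℤ) ∣ (-1) ^ (m + 1) * ((m + 2) * 2 ^ (m + 1)) := by
    refine ⟨(-1) ^ (m + 1) * 2 ^ m, ?_⟩
    push_cast
    rw [pow_succ (2 : ℤ) m]
    ring
  have h7 := dvd_add h2 h6
  rw [sub_add_cancel] at h7
  have h8 := mul_dvd_mul_left (2 : ℤ) h7
  have h9 : (4 * ((m + 2 : ℕ) : ℤ)) = 2 * ((2 * (m + 1 + 1) : ℕ) : ℤ) := by
    push_cast
    ring
  rw [h9]
  exact h8

end Pool.Agent.Results.MP_97e2c3_nt.OddPowerSums
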